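import Pool.Agent.helper55.NM.Spec

namespace Pool.Agent.helper82.NM

open Pool.Agent.NM Finset Nat

/-- the real inequality, two big elements -/
theorem GG2_two (ε ρ a1 a2 a3 b1 b2 b3 : ℝ) (hε : 0 < ε) (h1 : 1 / 3 + ε ≤ ρ) (h2 : ρ ≤ 1 / 2 - ε)
    (ha1 : 0 ≤ a1 ∧ a1 ≤ 1) (ha2 : 0 ≤ a2 ∧ a2 ≤ 1) (ha3 : 0 ≤ a3 ∧ a3 ≤ 1)
    (hb1 : 0 ≤ b1 ∧ b1 ≤ 1) (hb2 : 0 ≤ b2 ∧ b2 ≤ 1) (hb3 : 0 ≤ b3 ∧ b3 ≤ 1)
    (hA : a3 = 0 ∨ (a1 = 0 ∧ a2 = 0)) (hB : b3 = 0 ∨ (b1 = 0 ∧ b2 = 0))
    (c1 : (1 - ρ) * a1 + ρ * b1 ≤ 1 - ε) (c2 : (1 - ρ) * a2 + ρ * b2 ≤ 1 - ε)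
    (c3 : (1 - ρ) * a3 + ρ * b3 ≤ 1 - ε) :
    ρ * (1 - ρ) ^ 2 * a1 + ρ * (1 - ρ) ^ 2 * a2 + ρ ^ 2 * (1 - ρ) * a3 +
      ρ ^ 2 * (1 - ρ) * b1 + ρ ^ 2 * (1 - ρ) * b2 + ρ ^ 3 * b3 ≤ (1 - ε) * (2 * ρ * (1 - ρ)) := by
  have hε2 : ε ≤ 1 / 12 := by linarith
  have hρ0 : 0 < ρ := by linarith
  have hρ1 : 0 < 1 - ρ := by linarith
  have hpp : 0 < ρ * (1 - ρ) := mul_pos hρ0 hρ1
  rcases hA with hA | ⟨hA1, hA2⟩
  · rcases hB with hB | ⟨hB1, hB2⟩
    · rw [hA, hB]
      have e1 : ρ * (1 - ρ) * ((1 - ρ) * a1 + ρ * b1) ≤ ρ * (1 - ρ) * (1 - ε) :=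
        mul_le_mul_of_nonneg_left c1 hpp.le
      have e2 : ρ * (1 - ρ) * ((1 - ρ) * a2 + ρ * b2) ≤ ρ * (1 - ρ) * (1 - ε) :=
        mul_le_mul_of_nonneg_left c2 hpp.le
      nlinarith
    · rw [hA, hB1, hB2]
      have e1 : ρ * (1 - ρ) ^ 2 * a1 ≤ ρ * (1 - ρ) ^ 2 * 1 :=
        mul_le_mul_of_nonneg_left ha1.2 (by positivity)
      have e2 : ρ * (1 - ρ) ^ 2 * a2 ≤ ρ * (1 - ρ) ^ 2 * 1 :=
        mul_le_mul_of_nonneg_left ha2.2 (by positivity)
      have e3 : ρ ^ 3 * b3 ≤ ρ ^ 3 * 1 := mul_le_mul_of_nonneg_left hb3.2 (by positivity)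
      have e4 : ρ ^ 2 + 2 * (1 - ρ) ^ 2 ≤ (1 - ε) * (2 * (1 - ρ)) := by nlinarith
      have e5 : ρ * (ρ ^ 2 + 2 * (1 - ρ) ^ 2) ≤ ρ * ((1 - ε) * (2 * (1 - ρ))) :=
        mul_le_mul_of_nonneg_left e4 hρ0.le
      nlinarith
  · rcases hB with hB | ⟨hB1, hB2⟩
    · rw [hA1, hA2, hB]
      have e1 : ρ ^ 2 * (1 - ρ) * a3 ≤ ρ ^ 2 * (1 - ρ) * 1 :=
        mul_le_mul_of_nonneg_left ha3.2 (by positivity)
      have e2 : ρ ^ 2 * (1 - ρ) * b1 ≤ ρ ^ 2 * (1 - ρ) * 1 :=
        mul_le_mul_of_nonneg_left hb1.2 (by positivity)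
      have e3 : ρ ^ 2 * (1 - ρ) * b2 ≤ ρ ^ 2 * (1 - ρ) * 1 :=
        mul_le_mul_of_nonneg_left hb2.2 (by positivity)
      have e4 : 3 * ρ ≤ 2 * (1 - ε) := by linarith
      have e5 : ρ * (1 - ρ) * (3 * ρ) ≤ ρ * (1 - ρ) * (2 * (1 - ε)) :=
        mul_le_mul_of_nonneg_left e4 hpp.le
      nlinarith
    · rw [hA1, hA2, hB1, hB2]
      have e1 : ρ ^ 2 * ((1 - ρ) * a3 + ρ * b3) ≤ ρ ^ 2 * (1 - ε) :=
        mul_le_mul_of_nonneg_left c3 (by positivity)
      have e2 : ρ * ρ * (1 - ε) ≤ ρ * (2 * (1 - ρ)) * (1 - ε) := by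
        refine mul_le_mul_of_nonneg_right ?_ (by linarith)
        exact mul_le_mul_of_nonneg_left (by linarith) hρ0.le
      nlinarith

/-- the value of a set -/
noncomputable def GG2_v {p : ℕ} (H : Finset (Finset (Fin p))) (d : Finset (Fin p) → ℕ) (R : ℝ)
    (I : Finset (Fin p)) : ℝ := if I ∈ H then R ^ d I else 0

theorem GG2_v01 {p : ℕ} (H : Finset (Finset (Fin p))) (d : Finset (Fin p) → ℕ) (R : ℝ) (h0 : 0 ≤ R)
    (h1 : R ≤ 1) (I : Finset (Fin p)) : 0 ≤ GG2_v H d R I ∧ GG2_v H d R I ≤ 1 := by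
  unfold GG2_v
  split_ifs
  · exact ⟨pow_nonneg h0 _, pow_le_one₀ h0 h1⟩
  · exact ⟨le_refl _, zero_le_one⟩

theorem GG2_v0 {p : ℕ} (H : Finset (Finset (Fin p))) (d : Finset (Fin p) → ℕ) (R : ℝ)
    (I : Finset (Fin p)) (h : I ∉ H) : GG2_v H d R I = 0 := by
  unfold GG2_v
  rw [if_neg h]

theorem GG2_c {p : ℕ} (S : Finset (Fin p)) (H : Finset (Finset (Fin p)))
    (d : Finset (Fin p) → ℕ) (ε ρ R : ℝ) (hH : Hyp p S H d) (hε : 0 < ε) (h1 : 1 / 3 + ε ≤ ρ)
    (h2 : ρ ≤ 1 / 2 - ε) (hR0 : 0 ≤ R) (hR : R ≤ 1 - 2 * ε) (e : Fin p) (I : Finset (Fin p))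
    (he : e ∉ I) : (1 - ρ) * GG2_v H d R I + ρ * GG2_v H d R (insert e I) ≤ 1 - ε := by
  have hρ0 : 0 < ρ := by linarith
  have hρ1 : 0 < 1 - ρ := by linarith
  have hR1 : R ≤ 1 := by linarith
  have hv1 := GG2_v01 H d R hR0 hR1 I
  have hv2 := GG2_v01 H d R hR0 hR1 (insert e I)
  by_cases hI : I ∈ H
  · by_cases hI2 : insert e I ∈ H
    · have hss : I ⊂ insert e I := Finset.ssubset_insert he
      have hd := hH.2.2 I hI (insert e I) hI2 hss
      have hle : GG2_v H d R I ≤ 1 - 2 * ε := by
        unfold GG2_v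
        rw [if_pos hI]
        refine le_trans ?_ hR
        calc R ^ d I ≤ R ^ 1 := pow_le_pow_of_le_one hR0 hR1 (by omega)
          _ = R := pow_one R
      have e1 : (1 - ρ) * GG2_v H d R I ≤ (1 - ρ) * (1 - 2 * ε) :=
        mul_le_mul_of_nonneg_left hle hρ1.le
      have e2 : ρ * GG2_v H d R (insert e I) ≤ ρ * 1 := mul_le_mul_of_nonneg_left hv2.2 hρ0.le
      nlinarith
    · rw [GG2_v0 H d R _ hI2]
      have e1 : (1 - ρ) * GG2_v H d R I ≤ (1 - ρ) * 1 := mul_le_mul_of_nonneg_left hv1.2 hρ1.le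
      linarith
  · rw [GG2_v0 H d R _ hI]
    have e2 : ρ * GG2_v H d R (insert e I) ≤ ρ * 1 := mul_le_mul_of_nonneg_left hv2.2 hρ0.le
    linarith

theorem GG2 : GG2_stmt := by
  classical
  intro p S H d ε ρ R hH hε h1 h2 hR0 hR hp hb
  have hρ0 : 0 < ρ := by linarith
  have hρ1 : 0 < 1 - ρ := by linarith
  have hR1 : R ≤ 1 := by linarith
  have hε2 : ε ≤ 1 / 12 := by linarith
  have hcS : S.card + (univ \ S).card = p := by
    rw [Finset.card_sdiff_of_subset (Finset.subset_univ S), Finset.card_univ, Fintype.card_fin]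
    have := Finset.card_le_univ S
    rw [Fintype.card_fin] at this
    omega
  have hSne : S.Nonempty := by
    rw [← Finset.card_pos]; omega
  obtain ⟨e, heS⟩ := hSne
  have hconv : ∑ I ∈ H, ρ ^ I.card * (1 - ρ) ^ (p - I.card) * R ^ d I =
      ∑ I ∈ (univ : Finset (Fin p)).powerset, ρ ^ I.card * (1 - ρ) ^ (p - I.card) * GG2_v H d R I := by
    rw [Finset.powerset_univ]
    have : ∀ I : Finset (Fin p), ρ ^ I.card * (1 - ρ) ^ (p - I.card) * GG2_v H d R I =
        if I ∈ H then ρ ^ I.card * (1 - ρ) ^ (p - I.card) * R ^ d I else 0 := by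
      intro I
      unfold GG2_v
      split_ifs
      · rfl
      · rw [mul_zero]
    rw [Finset.sum_congr rfl fun I _ => this I, Finset.sum_ite_mem, Finset.univ_inter]
  rw [hconv]
  have heS' : e ∉ S.erase e := Finset.notMem_erase e S
  have hins : insert e (S.erase e) = S := Finset.insert_erase heS
  have hc' : (S.erase e).card + 1 = S.card := Finset.card_erase_add_one heS
  -- sets inside S are not in H
  have hsub : ∀ I : Finset (Fin p), I ⊆ S → GG2_v H d R I = 0 := fun I hI =>
    GG2_v0 H d R I fun h => hH.1 I h hI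
  have hμ : ∑ t ∈ (S.erase e).powerset, ρ ^ t.card * (1 - ρ) ^ ((S.erase e).card - t.card) = 1 := by
    rw [Finset.sum_pow_mul_eq_add_pow]
    have : ρ + (1 - ρ) = 1 := by ring
    rw [this, one_pow]
  have hK : 0 ≤ (1 - ε) * (2 * ρ * (1 - ρ)) := by
    refine mul_nonneg (by linarith) (by positivity)
  have hfinish : ∀ F : Finset (Fin p) → ℝ,
      (∀ t ∈ (S.erase e).powerset, F t ≤ (ρ ^ t.card * (1 - ρ) ^ ((S.erase e).card - t.card)) *
        ((1 - ε) * (2 * ρ * (1 - ρ)))) →
      ∑ t ∈ (S.erase e).powerset, F t ≤ (1 - ε) * (2 * ρ * (1 - ρ)) := by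
    intro F hF
    refine (Finset.sum_le_sum hF).trans ?_
    rw [← Finset.sum_mul, hμ, one_mul]
  have hcases : (univ \ S).card = 0 ∨ (univ \ S).card = 1 ∨ (univ \ S).card = 2 := by omega
  rcases hcases with hb0 | hb1 | hb2
  · have hSu : ∀ I : Finset (Fin p), I ⊆ S := by
      intro I i _
      by_contra hi
      rw [Finset.card_eq_zero] at hb0
      have : i ∈ univ \ S := Finset.mem_sdiff.2 ⟨Finset.mem_univ i, hi⟩
      rw [hb0] at this
      exact absurd this (Finset.notMem_empty i)
    rw [Finset.sum_eq_zero]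
    · exact hK
    · intro I _
      rw [hsub I (hSu I), mul_zero]
  · obtain ⟨u, hu⟩ := Finset.card_eq_one.1 hb1
    have huS : u ∉ S := by
      have : u ∈ univ \ S := by rw [hu]; exact Finset.mem_singleton_self u
      exact (Finset.mem_sdiff.1 this).2
    have huniv : (univ : Finset (Fin p)) = insert e (insert u (S.erase e)) := by
      rw [Finset.insert_comm, hins]
      have := Finset.union_sdiff_of_subset (Finset.subset_univ S)
      rw [hu, Finset.union_comm] at this
      rw [← this]
      rfl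
    have hue : e ≠ u := fun h => huS (h ▸ heS)
    have n1 : u ∉ S.erase e := fun h => huS (Finset.mem_of_mem_erase h)
    have n2 : e ∉ insert u (S.erase e) := by
      rw [Finset.mem_insert]
      rintro (h | h)
      · exact hue h
      · exact heS' h
    rw [huniv, Finset.sum_powerset_insert n2, Finset.sum_powerset_insert n1,
      Finset.sum_powerset_insert n1, ← Finset.sum_add_distrib, ← Finset.sum_add_distrib,
      ← Finset.sum_add_distrib]
    refine hfinish _ fun t ht => ?_
    rw [Finset.mem_powerset] at ht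
    have hut : u ∉ t := fun h => n1 (ht h)
    have het : e ∉ t := fun h => heS' (ht h)
    have heut : e ∉ insert u t := by
      rw [Finset.mem_insert]
      rintro (h | h)
      · exact hue h
      · exact het h
    have htS : t ⊆ S := fun i hi => Finset.mem_of_mem_erase (ht hi)
    have hetS : insert e t ⊆ S := by
      intro i hi
      rcases Finset.mem_insert.1 hi with h | h
      · rw [h]; exact heS
      · exact htS h
    rw [hsub t htS, hsub (insert e t) hetS, mul_zero, mul_zero, zero_add, zero_add]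
    have hct : t.card ≤ (S.erase e).card := Finset.card_le_card ht
    rw [Finset.card_insert_of_notMem heut, Finset.card_insert_of_notMem hut]
    have x1 : p - (t.card + 1) = ((S.erase e).card - t.card) + 1 := by omega
    have x2 : p - (t.card + 1 + 1) = (S.erase e).card - t.card := by omega
    rw [x1, x2]
    have hμ0 : 0 ≤ ρ ^ t.card * (1 - ρ) ^ ((S.erase e).card - t.card) := by positivity
    have hc := GG2_c S H d ε ρ R hH hε h1 h2 hR0 hR e (insert u t) heut
    have key : ρ * ((1 - ρ) * GG2_v H d R (insert u t) + ρ * GG2_v H d R (insert e (insert u t))) ≤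
        (1 - ε) * (2 * ρ * (1 - ρ)) := by
      have e1 : ρ * ((1 - ρ) * GG2_v H d R (insert u t) + ρ * GG2_v H d R (insert e (insert u t))) ≤
          ρ * (1 - ε) := mul_le_mul_of_nonneg_left hc hρ0.le
      have e2 : ρ * (1 - ε) ≤ ρ * (1 - ε) * (2 * (1 - ρ)) := by
        have : 0 ≤ ρ * (1 - ε) := mul_nonneg hρ0.le (by linarith)
        nlinarith
      nlinarith
    calc _ = (ρ ^ t.card * (1 - ρ) ^ ((S.erase e).card - t.card)) *
          (ρ * ((1 - ρ) * GG2_v H d R (insert u t) + ρ * GG2_v H d R (insert e (insert u t)))) := by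
          ring
      _ ≤ _ := mul_le_mul_of_nonneg_left key hμ0
  · obtain ⟨u, v, huv, hu⟩ := Finset.card_eq_two.1 hb2
    have huS : u ∉ S := by
      have : u ∈ univ \ S := by rw [hu]; simp
      exact (Finset.mem_sdiff.1 this).2
    have hvS : v ∉ S := by
      have : v ∈ univ \ S := by rw [hu]; simp
      exact (Finset.mem_sdiff.1 this).2
    have huniv : (univ : Finset (Fin p)) = insert e (insert u (insert v (S.erase e))) := by
      ext i
      simp only [Finset.mem_univ, true_iff, Finset.mem_insert, Finset.mem_erase]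
      by_cases hi : i ∈ S
      · by_cases hie : i = e
        · left; exact hie
        · right; right; right; exact ⟨hie, hi⟩
      · have : i ∈ univ \ S := Finset.mem_sdiff.2 ⟨Finset.mem_univ i, hi⟩
        rw [hu, Finset.mem_insert, Finset.mem_singleton] at this
        rcases this with h | h
        · right; left; exact h
        · right; right; left; exact h
    have hue : e ≠ u := fun h => huS (h ▸ heS)
    have hve : e ≠ v := fun h => hvS (h ▸ heS)
    have n0 : v ∉ S.erase e := fun h => hvS (Finset.mem_of_mem_erase h)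
    have n1 : u ∉ insert v (S.erase e) := by
      rw [Finset.mem_insert]
      rintro (h | h)
      · exact huv h
      · exact huS (Finset.mem_of_mem_erase h)
    have n2 : e ∉ insert u (insert v (S.erase e)) := by
      rw [Finset.mem_insert, Finset.mem_insert]
      rintro (h | h | h)
      · exact hue h
      · exact hve h
      · exact heS' h
    rw [huniv, Finset.sum_powerset_insert n2, Finset.sum_powerset_insert n1,
      Finset.sum_powerset_insert n1, Finset.sum_powerset_insert n0, Finset.sum_powerset_insert n0,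
      Finset.sum_powerset_insert n0, Finset.sum_powerset_insert n0]
    simp only [← Finset.sum_add_distrib]
    refine hfinish _ fun t ht => ?_
    rw [Finset.mem_powerset] at ht
    have hvt : v ∉ t := fun h => n0 (ht h)
    have hut : u ∉ t := fun h => huS (Finset.mem_of_mem_erase (ht h))
    have het : e ∉ t := fun h => heS' (ht h)
    have huvt : u ∉ insert v t := by
      rw [Finset.mem_insert]
      rintro (h | h)
      · exact huv h
      · exact hut h
    have hevt : e ∉ insert v t := by
      rw [Finset.mem_insert]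
      rintro (h | h)
      · exact hve h
      · exact het h
    have heut : e ∉ insert u t := by
      rw [Finset.mem_insert]
      rintro (h | h)
      · exact hue h
      · exact het h
    have heuvt : e ∉ insert u (insert v t) := by
      rw [Finset.mem_insert]
      rintro (h | h)
      · exact hue h
      · exact hevt h
    have htS : t ⊆ S := fun i hi => Finset.mem_of_mem_erase (ht hi)
    have hetS : insert e t ⊆ S := by
      intro i hi
      rcases Finset.mem_insert.1 hi with h | h
      · rw [h]; exact heS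
      · exact htS h
    rw [hsub t htS, hsub (insert e t) hetS]
    have hct : t.card ≤ (S.erase e).card := Finset.card_le_card ht
    rw [Finset.card_insert_of_notMem heuvt, Finset.card_insert_of_notMem heut,
      Finset.card_insert_of_notMem hevt, Finset.card_insert_of_notMem huvt,
      Finset.card_insert_of_notMem hut, Finset.card_insert_of_notMem hvt]
    have x1 : p - (t.card + 1) = ((S.erase e).card - t.card) + 2 := by omega
    have x2 : p - (t.card + 1 + 1) = ((S.erase e).card - t.card) + 1 := by omega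
    have x3 : p - (t.card + 1 + 1 + 1) = (S.erase e).card - t.card := by omega
    rw [x1, x2, x3]
    have hμ0 : 0 ≤ ρ ^ t.card * (1 - ρ) ^ ((S.erase e).card - t.card) := by positivity
    have hanti : ∀ I J : Finset (Fin p), I ∩ S = J ∩ S → I ⊆ J → I ≠ J →
        GG2_v H d R J = 0 ∨ GG2_v H d R I = 0 := by
      intro I J h3 h4 h5
      by_cases hJ : J ∈ H
      · right
        refine GG2_v0 H d R I fun hI => h5 (hH.2.1 I hI J hJ h3 h4)
      · left; exact GG2_v0 H d R J hJ
    have hAu := hanti (insert u t) (insert u (insert v t))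
      (by rw [Finset.insert_inter_of_notMem huS, Finset.insert_inter_of_notMem huS,
            Finset.insert_inter_of_notMem hvS])
      (Finset.insert_subset_insert u (Finset.subset_insert v t))
      (by
        intro h
        have : v ∈ insert u t := by rw [h]; simp
        rcases Finset.mem_insert.1 this with h' | h'
        · exact huv h'.symm
        · exact hvt h')
    have hAv := hanti (insert v t) (insert u (insert v t))
      (by rw [Finset.insert_inter_of_notMem huS])
      (Finset.subset_insert u _)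
      (by
        intro h
        have : u ∈ insert v t := by rw [h]; simp
        exact huvt this)
    have hBu := hanti (insert e (insert u t)) (insert e (insert u (insert v t)))
      (by rw [Finset.insert_inter_of_mem heS, Finset.insert_inter_of_mem heS,
            Finset.insert_inter_of_notMem huS, Finset.insert_inter_of_notMem huS,
            Finset.insert_inter_of_notMem hvS])
      (Finset.insert_subset_insert e (Finset.insert_subset_insert u (Finset.subset_insert v t)))
      (by
        intro h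
        have : v ∈ insert e (insert u t) := by rw [h]; simp
        rcases Finset.mem_insert.1 this with h' | h'
        · exact hve h'.symm
        rcases Finset.mem_insert.1 h' with h' | h'
        · exact huv h'.symm
        · exact hvt h')
    have hBv := hanti (insert e (insert v t)) (insert e (insert u (insert v t)))
      (by rw [Finset.insert_inter_of_mem heS, Finset.insert_inter_of_mem heS,
            Finset.insert_inter_of_notMem huS])
      (Finset.insert_subset_insert e (Finset.subset_insert u _))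
      (by
        intro h
        have : u ∈ insert e (insert v t) := by rw [h]; simp
        rcases Finset.mem_insert.1 this with h' | h'
        · exact hue h'.symm
        · exact huvt h')
    have key := GG2_two ε ρ (GG2_v H d R (insert u t)) (GG2_v H d R (insert v t))
      (GG2_v H d R (insert u (insert v t))) (GG2_v H d R (insert e (insert u t)))
      (GG2_v H d R (insert e (insert v t))) (GG2_v H d R (insert e (insert u (insert v t))))
      hε h1 h2 (GG2_v01 H d R hR0 hR1 _) (GG2_v01 H d R hR0 hR1 _) (GG2_v01 H d R hR0 hR1 _)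
      (GG2_v01 H d R hR0 hR1 _) (GG2_v01 H d R hR0 hR1 _) (GG2_v01 H d R hR0 hR1 _)
      (by
        rcases hAu with h | h
        · left; exact h
        · rcases hAv with h' | h'
          · left; exact h'
          · right; exact ⟨h, h'⟩)
      (by
        rcases hBu with h | h
        · left; exact h
        · rcases hBv with h' | h'
          · left; exact h'
          · right; exact ⟨h, h'⟩)
      (GG2_c S H d ε ρ R hH hε h1 h2 hR0 hR e _ heut)
      (GG2_c S H d ε ρ R hH hε h1 h2 hR0 hR e _ hevt)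
      (GG2_c S H d ε ρ R hH hε h1 h2 hR0 hR e _ heuvt)
    have key2 := mul_le_mul_of_nonneg_left key hμ0
    refine le_trans (le_of_eq ?_) key2
    ring

end Pool.Agent.helper82.NM
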